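import Mathlib
import Pool.Agent.Run7.h105.PC.Defs

/-!
# Project PC (helper105), piece G1: the minimum is attained, by points of `[0,n]`
-/

set_option autoImplicit false

open Filter Topology Set MeasureTheory
open scoped ENNReal

namespace Run7.h958.PC

open Pool.Agent.Run7.h105.PC

/-- **G1** -/
theorem t_G1 : S_G1 := by
  intro s hs n
  have hne : {k : ℕ | ∃ X : Multiset ℝ, X.card = k ∧ Cov s 1 (Icc 0 (n : ℝ)) X}.Nonempty := by
    refine ⟨_, (Multiset.range (n + 1)).map (fun i : ℕ => (i : ℝ)), rfl, ?_⟩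
    intro y hy
    have h0 : ⌊y⌋₊ ≤ n := by
      have := Nat.floor_le_floor hy.2
      rwa [Nat.floor_natCast] at this
    have hmem : ((⌊y⌋₊ : ℕ) : ℝ) ∈ (Multiset.range (n + 1)).map (fun i : ℕ => (i : ℝ)) :=
      Multiset.mem_map.2 ⟨⌊y⌋₊, Multiset.mem_range.2 (by omega), rfl⟩
    refine le_U_of_mem hs hmem ?_
    rw [abs_le]
    have h1 := Nat.floor_le hy.1
    have h2 := Nat.lt_floor_add_one y
    constructor <;> linarith
  obtain ⟨X, hX, hC⟩ := Nat.sInf_mem hne
  refine ⟨X.map fun x => max 0 (min (n : ℝ) x), ?_, ?_, ?_⟩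
  · rw [Multiset.card_map, hX]
    rfl
  · intro x hx
    obtain ⟨z, _, rfl⟩ := Multiset.mem_map.1 hx
    exact ⟨le_max_left _ _, max_le (Nat.cast_nonneg n) (min_le_left _ _)⟩
  · intro y hy
    refine (hC y hy).trans ?_
    unfold U
    rw [Multiset.map_map]
    refine Multiset.sum_map_le_sum_map _ _ fun x _ => ?_
    have h : |y - max 0 (min (n : ℝ) x)| ≤ |y - x| := by
      rcases le_total x 0 with h | h
      · rw [min_eq_right (h.trans (Nat.cast_nonneg n)), max_eq_left h, sub_zero, abs_of_nonneg hy.1,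
          abs_of_nonneg (by linarith [hy.1])]
        linarith
      · rcases le_total x n with h' | h'
        · rw [min_eq_right h', max_eq_right h]
        · rw [min_eq_left h', max_eq_right (Nat.cast_nonneg n), abs_of_nonpos (by linarith [hy.2]),
            abs_of_nonpos (by linarith [hy.2])]
          linarith
    simp only [Function.comp_apply]
    rw [ENNReal.rpow_neg, ENNReal.rpow_neg]
    exact ENNReal.inv_le_inv.2 (ENNReal.rpow_le_rpow (ENNReal.ofReal_le_ofReal h) hs.le)

end Run7.h958.PC
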